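import Pool.Agent.Q329.AC.Core

/-!
# Gap vertex cover is not hard under constant-depth reductions that output sparse graphs

A graph with weights `0 ≤ wt v ≤ 1` of the vertices is given by a list of `M` edges. The gap problem
is to tell whether some vertex cover has weight at most `k`, or every vertex cover has weight at
least `(1 + β) k`; every approximation of the least weight of a vertex cover with a ratio less than
`1 + β` solves it.

A many-one reduction from parity on `N` bits to this gap problem, computed by circuits of constant
depth, needs exponential size in a power of `X = β N / (Δ b)` if the graphs have at most `Δ k` edges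
(for unit weights this follows if all degrees are at most `Δ`), where `b` is the number of bits that
describe an edge; for the usual encodings `b = O(log |V|)`. The number of vertices is arbitrary, and
the code of the edges is arbitrary. So for no ratio `1 + β > 1` is the gap problem hard for `NP`, or
even for parity, under (nonuniform) `AC0` many-one reductions to graphs of average degree
`N ^ (1 - Ω(1))`. On the other hand `NP`-hardness proofs which do not produce a gap usually are such
reductions, to graphs of bounded degree; and for graphs of bounded degree and ratios near one the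
gap problem is `NP`-hard under polynomial-time reductions.

The definitions of circuits (`Circuit`, `nodeVal`, `nodeDepth`: NOT gates and AND and OR gates of
unbounded fan-in) are in `Pool/Agent/H568R2/Defs.lean`.

Idea of the proof. A cover of weight at most `k` of the first graph misses at least `β k` edges of the
second one, since each missed edge can be covered by one more vertex, of weight at most one. So the
two lists differ in at least `β k` edges. Under a random restriction which leaves many variables
free, all bits become decision trees of small depth `s`, so at every input at most `b s` of the free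
variables are sensitive for a given edge. Count the pairs of a free variable and an edge which
changes when the variable is flipped.
-/

set_option autoImplicit false

namespace Pool.Agent.Results.MP_cff830_lc.ConstantDepthReductions

open Finset DomAC0
open scoped Classical

/-- `S` is a vertex cover of the graph with the list of edges `E`. -/
def IsCover {V : Type} {M : ℕ} (E : Fin M → V × V) (S : Finset V) : Prop :=
  ∀ e, (E e).1 ∈ S ∨ (E e).2 ∈ S

/-- The weight of a set of vertices. -/
noncomputable def weight {V : Type} (wt : V → ℝ) (S : Finset V) : ℝ := ∑ v ∈ S, wt v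

/-- For every depth `h` there is `X₀` with the following property. Let `C` be a circuit with `N`
inputs, with NOT gates and AND and OR gates of unbounded fan-in, and let `out e j`, `e < M`, `j < b`,
be nodes of depth at most `h`. For every input `x` let the edge number `e` of the graph `G x` on the
vertex set `V` be given by the `b` bits `out e j` by the code `decode`. Let the weights of the vertices
be between `0` and `1`, `β ≥ 0` and `1 ≤ M ≤ Δ k`. If `G x` has a vertex cover of weight at most `k`
whenever `x` has an even number of ones, and all vertex covers of `G x` have weight at least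
`(1 + β) k` whenever `x` has an odd number of ones, and if `X = β N / (Δ b) ≥ X₀`, then `C` has at
least `2 ^ (X ^ (1 / (h + 1)) / 100)` gates. -/
theorem result (h : ℕ) : ∃ X₀ : ℝ, ∀ (N : ℕ) (C : Circuit (Fin N)) (V : Type) (M b : ℕ)
    (out : Fin M → Fin b → Fin N ⊕ Fin C.size) (decode : (Fin b → Bool) → V × V)
    (G : (Fin N → Bool) → Fin M → V × V) (wt : V → ℝ) (k β Δ : ℝ),
    (∀ e j, C.nodeDepth (out e j) ≤ h) →
    (∀ x e, G x e = decode fun j => C.nodeVal x (out e j)) →
    (∀ v, 0 ≤ wt v ∧ wt v ≤ 1) → 0 ≤ β → 1 ≤ M → 0 < Δ → M ≤ Δ * k →
    (∀ x, ¬ Odd (univ.filter fun i => x i = true).card →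
      ∃ S, IsCover (G x) S ∧ weight wt S ≤ k) →
    (∀ x, Odd (univ.filter fun i => x i = true).card →
      ∀ S, IsCover (G x) S → (1 + β) * k ≤ weight wt S) →
    X₀ ≤ β * N / (Δ * b) →
    (2 : ℝ) ^ ((β * N / (Δ * b)) ^ (1 / (h + 1 : ℝ)) / 100) ≤ C.size := by
  obtain ⟨X₀, hX1, hX₀⟩ := Pool.Agent.Q329.AC.large h
  refine ⟨X₀, ?_⟩
  intro N C V M b out decode G wt k β Δ hdepth hG hwt hβ hM hΔ hMk hyes hno hX
  have hb : 1 ≤ b := by
    by_contra hb
    have : b = 0 := by omega
    rw [this, Nat.cast_zero, mul_zero, div_zero] at hX
    linarith
  have : Nonempty (Fin M) := ⟨⟨0, hM⟩⟩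
  -- two graphs, one with a light cover and one without
  have key : ∀ x y : Fin N → Bool, (∃ S, IsCover (G x) S ∧ weight wt S ≤ k) →
      (∀ S, IsCover (G y) S → (1 + β) * k ≤ weight wt S) →
      β / Δ * Fintype.card (Fin M) ≤ ((univ.filter fun e =>
        (fun j => C.nodeVal x (out e j)) ≠ fun j => C.nodeVal y (out e j)).card : ℝ) := by
    rintro x y ⟨S, hS, hSk⟩ hy
    set U : Finset (Fin M) := univ.filter fun e => ¬ ((G y e).1 ∈ S ∨ (G y e).2 ∈ S) with hU
    have h1 := hy (S ∪ U.image fun e => (G y e).1) (by
      intro e
      by_cases he : (G y e).1 ∈ S ∨ (G y e).2 ∈ S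
      · rcases he with he | he
        · exact Or.inl (mem_union_left _ he)
        · exact Or.inr (mem_union_left _ he)
      · exact Or.inl (mem_union_right _ (mem_image_of_mem (fun e => (G y e).1)
          (by rw [hU, mem_filter]; exact ⟨mem_univ _, he⟩))))
    have h2 : weight wt (S ∪ U.image fun e => (G y e).1) ≤ k + U.card := by
      unfold weight
      have h3 : ∑ v ∈ S ∪ U.image (fun e => (G y e).1), wt v +
          ∑ v ∈ S ∩ U.image (fun e => (G y e).1), wt v =
          ∑ v ∈ S, wt v + ∑ v ∈ U.image (fun e => (G y e).1), wt v := sum_union_inter
      have h4 : 0 ≤ ∑ v ∈ S ∩ U.image (fun e => (G y e).1), wt v :=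
        sum_nonneg fun v _ => (hwt v).1
      have h5 : ∑ v ∈ U.image (fun e => (G y e).1), wt v ≤ U.card := by
        calc ∑ v ∈ U.image (fun e => (G y e).1), wt v ≤
              ∑ v ∈ U.image (fun e => (G y e).1), (1 : ℝ) := sum_le_sum fun v _ => (hwt v).2
          _ = ((U.image fun e => (G y e).1).card : ℝ) := by rw [sum_const, nsmul_eq_mul, mul_one]
          _ ≤ U.card := by exact_mod_cast card_image_le
      unfold weight at hSk
      linarith
    have h6 : (U.card : ℝ) ≤ ((univ.filter fun e =>
        (fun j => C.nodeVal x (out e j)) ≠ fun j => C.nodeVal y (out e j)).card : ℝ) := by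
      norm_cast
      refine card_le_card fun e he => ?_
      rw [hU, mem_filter] at he
      rw [mem_filter]
      refine ⟨mem_univ _, fun heq => he.2 ?_⟩
      have h7 := hS e
      rw [hG x e, heq, ← hG y e] at h7
      exact h7
    have h8 : β * k ≤ U.card := by linarith
    refine le_trans ?_ (h8.trans h6)
    rw [Fintype.card_fin, div_mul_eq_mul_div, div_le_iff₀ hΔ]
    calc β * (M : ℝ) ≤ β * (Δ * k) := mul_le_mul_of_nonneg_left hMk hβ
      _ = β * k * Δ := by ring
  refine hX₀ _ C.size hX fun s hs hcond => ?_
  have h6 := Pool.Agent.Q329.AC.list_core C out h hdepth (by rw [Fintype.card_fin]; exact hb)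
    (β / Δ) (by positivity) (fun x i => ?_) hs hcond
  · rw [Fintype.card_fin] at h6
    refine le_trans (le_of_eq ?_) h6
    rw [div_mul_eq_mul_div, div_div]
  · have hpar := Pool.Agent.Y601.SSE.odd_flip i x
    by_cases hodd : Odd (univ.filter fun j => x j = true).card
    · have hev : ¬ Odd (univ.filter fun j => Pool.Agent.Y601.SSE.flip i x j = true).card := by
        rw [hpar]; exact not_not.2 hodd
      refine (key _ _ (hyes _ hev) (hno _ hodd)).trans (le_of_eq ?_)
      congr 2
      ext e
      simp only [mem_filter, mem_univ, true_and, ne_eq]
      exact not_congr eq_comm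
    · exact key _ _ (hyes _ hodd) (hno _ (hpar.2 hodd))

end Pool.Agent.Results.MP_cff830_lc.ConstantDepthReductions
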