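import Pool.Agent.Q329.UP.GI

set_option autoImplicit false

/-!
# Vertex cover within a factor `7/6` and locally symmetric semidefinite programs

Three parts; a vertex set with `r` disjoint quadruples of vertices is given.

1. A fixed pair: for every `ε > 0` and all large `r` there are two graphs with `O(r)` edges, one with
   a vertex cover of `3 r` vertices, the other without a vertex cover of less than `(7/2 - ε) r`
   vertices, which all semidefinite programs of order at most `2 ^ (r / C)` that are symmetric
   under the even permutations of each quadruple treat in the same way.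
2. Random programs that are only symmetric under the Klein four-groups of the quadruples and
   tell the two cases apart with error `1/3` have order `2 ^ (r / C)` too.
3. Conversely, any program that tells the two cases apart can be made symmetric under these
   Klein four-groups when its order is multiplied by `4 ^ r`.

Parts 2 and 3 are the theorems `vc_lower`, `vc_conv` of `Pool/Agent/H550R2/Cl/VC.lean`, which the
starting files used only for graph isomorphism; part 1 is new (`Pool/Agent/Q329/UP`), from the
unused starting theorem `quad_univ`.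
-/

namespace Pool.Agent.Results.MP_cff830_lc.SymmetricSDP

open Pool.Agent.H550R2.Lift Pool.Agent.H550R2.Cl
open Pool.Agent.H550R2.Neg (RSDP)

/-- `SmallVC G k`: `G` has a vertex cover with at most `k` vertices; `LargeVC G K`: all vertex covers
have at least `K` vertices; `SepVC R k K`: the random program `R` tells the two cases apart with
error at most `1/3`; `DecVC P k K`: the program `P` tells them apart; `TransSym R blk`: all programs
of `R` are symmetric under the Klein four-groups of all blocks. -/
theorem result :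
    (∀ ε : ℝ, 0 < ε → ∃ C : ℕ, 0 < C ∧ ∀ r : ℕ, C ≤ r →
      ∀ (V : Type) [Finite V] (blk : Fin r → (Fin 4 ↪ V)),
      (Pairwise fun i j => Disjoint (Set.range (blk i)) (Set.range (blk j))) →
      ∃ G H : SimpleGraph V, G.edgeSet.ncard ≤ C * r ∧ H.edgeSet.ncard ≤ C * r ∧
        SmallVC H (3 * r) ∧ LargeVC G ((7 / 2 - ε) * r) ∧
        ∀ (D : Type) [Fintype D] [DecidableEq D] (P : SDP (Sym2 V) D),
          (∀ i, P.SymOn edPerm (blk i)) → Fintype.card D ≤ 2 ^ (r / C) →
          (P.Acc (gvec G) ↔ P.Acc (gvec H))) ∧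
    (∀ ε : ℝ, 0 < ε → ∃ C : ℕ, 0 < C ∧ ∀ r : ℕ, C ≤ r →
      ∀ (V : Type) (blk : Fin r × (Fin 2 → ZMod 2) ↪ V) (R : RSDP (Sym2 V)),
      TransSym R blk → SepVC R (3 * r) ((7 / 2 - ε) * r) →
      ∀ N : ℕ, (∀ ω, Fintype.card (R.D ω) ≤ N) → 2 ^ (r / C) ≤ N) ∧
    (∀ (r : ℕ) (V : Type) (blk : Fin r × (Fin 2 → ZMod 2) ↪ V) (k K : ℝ) (D : Type) [Fintype D]
      [DecidableEq D] (P : SDP (Sym2 V) D), DecVC P k K →
      ∃ (D' : Type) (_ : Fintype D') (_ : DecidableEq D') (P' : SDP (Sym2 V) D'),
        Fintype.card D' = 4 ^ r * Fintype.card D ∧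
        (∀ γ, ∃ O, P'.IsAut (edPerm (tp blk γ)) O) ∧ DecVC P' k K) := by
  refine ⟨fun ε hε => ?_, vc_lower, fun _ _ blk k K D _ _ P hP => vc_conv blk k K D P hP⟩
  obtain ⟨C, hC0, hC⟩ := Pool.Agent.Q329.UP.univ_pair ε hε
  refine ⟨C, hC0, fun r hr V _ blk hd => ?_⟩
  obtain ⟨G, H, h1, h2, h3, h4, -, h5, -⟩ := hC r hr V blk hd
  refine ⟨G, H, ?_, ?_, h3, h4, h5⟩
  · have h6 : (G.edgeSet.ncard : ℝ) ≤ C * r := h1
    exact_mod_cast h6
  · have h6 : (H.edgeSet.ncard : ℝ) ≤ C * r := h2
    exact_mod_cast h6

end Pool.Agent.Results.MP_cff830_lc.SymmetricSDP
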