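import Pool.Agent.Q329.TI.Vc

/-!
# Approximating vertex cover within a constant factor is hard for read-once tensor networks

The inputs are graphs with the vertices `0, ..., n - 1` (all weights are one), given by their
adjacency bits `x e` for the pairs `e = (u, v)`, `u < v` (`Pr n`, `gr x`, `Covers` in
`Pool/Agent/Q329/TI/Vc.lean`).

A tree tensor network `Net K V A W` (`Pool/Agent/TH700/PA/Defs.lean`) has leaves that read one input
each (with a vector in `K ^ W` for each symbol); an inner node combines the vectors of its two
children by an arbitrary bilinear map. It accepts the input `x` if a linear form of the vector of the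
root is not zero. The field `K` and the weights are arbitrary, so there may be cancellations. The
tree and the order of the inputs are arbitrary; if every right child is a leaf then this is a matrix
product (a weighted read-once branching program). The bond dimension is `card W`.

(1) For every `ε > 0` there is a constant `D` such that for all `n ≥ D` networks with any number of
nodes which read every pair at most once, accept all graphs with a vertex cover of at most `ε n`
vertices, and reject all graphs all of whose vertex covers have at least `(1 - ε) n` vertices, have
bond dimension at least `2 ^ (n / D)`. Up to the factor `2 ^ μ` this also holds for random networks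
that never accept a graph of the second kind and accept each graph of the first kind with
probability at least `2 ^ (- μ)`. So in this model an approximation of the minimum vertex cover
within any constant factor (below two or not) is exponentially hard.

(2) The dependence on `n` is optimal up to the constant, even for exact computations: for all `k`
there are linear networks over `ℚ` which read every pair once, with one basis vector for every set of
at most `k` vertices, and accept exactly the graphs with a vertex cover of at most `k` vertices.

Proof. For a random set `I` of `(1 - ε / 2) n` vertices let all pairs that are not inside `I` be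
edges. By the replacement lemma of `Pool/Agent/TH700/PA` (the nodes of the tree give a partition of
the pairs into `t` parts of bounded rank; among many accepted inputs some mixture of different ones
is accepted) it is enough that almost no mixture has an independent set `S` of `ε n` vertices. In the
part `j` all vertices of `S` which lie on a pair of this part inside `S` have to be in the random
set `I_j`. As the parts are small, there are at least `κ |S|` such conditions (a vertex and a part)
for a large constant `κ` (`touched` in `Pool/Agent/Q329/TI/Mix.lean`), so that a union bound over all
sets `S` is possible.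
-/

set_option autoImplicit false

namespace Pool.Agent.Results.MP_cff830_lc.TensorNetworks

open Pool.Agent.TH700.PA (Net)
open Pool.Agent.Q329.TI

theorem result :
    -- (1) the lower bound
    (∀ ε : ℝ, 0 < ε → ∃ D : ℕ, 0 < D ∧ ∀ n : ℕ, D ≤ n →
      ∀ (μ : ℕ) (R : Type) [Fintype R] [Nonempty R] (K W : R → Type) [∀ ρ, Field (K ρ)]
        [∀ ρ, Fintype (W ρ)] (T : ∀ ρ, Net (K ρ) (Pr n) Bool (W ρ)) (a : ∀ ρ, W ρ → K ρ),
        (∀ ρ e, (T ρ).reads e ≤ 1) →
        (∀ ρ x, (∀ C, Covers (gr x) C → (1 - ε) * n ≤ C.card) → (T ρ).value (a ρ) x = 0) →
        (∀ x, (∃ C, Covers (gr x) C ∧ (C.card : ℝ) ≤ ε * n) →
          Nat.card R ≤ 2 ^ μ * Nat.card {ρ // (T ρ).value (a ρ) x ≠ 0}) →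
        ∃ ρ, 2 ^ n ≤ (2 ^ μ * Fintype.card (W ρ)) ^ D) ∧
    -- (2) the upper bound
    ∀ n k : ℕ, 2 ≤ n →
      ∃ (T : Net ℚ (Pr n) Bool {C : Finset (Fin n) // C.card ≤ k})
        (a : {C : Finset (Fin n) // C.card ≤ k} → ℚ),
        T.Linear ∧ (∀ e, T.reads e = 1) ∧ ∀ x, T.value a x ≠ 0 ↔
          ∃ C, Covers (gr x) C ∧ C.card ≤ k :=
  ⟨fun ε hε => vc_lower ε hε, fun n k hn => vc_upper n k hn⟩

end Pool.Agent.Results.MP_cff830_lc.TensorNetworks
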