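import Pool.Agent.Q329.UX.Value
import Pool.Agent.H630VC.Avg4

/-!
# Vertex cover: the ratio 2 for circuits with unreliable negated inputs

A graph on the vertex set `V` (all weights are one) is given by bits: for all pairs `e` of vertices
and all tags `j < K`, the bit of the position `(e, j)` tells whether `e` is an edge with the tag `j`.
Every edge has one tag, which has no meaning (`Tagged`).

The model: randomised circuits whose inputs are these bits and their negations, with gates that
compute arbitrary nondecreasing real functions of two arguments (`LiteralCircuit` in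
`Pool/Agent/Q329/UX/Model.lean`). All circuits with AND, OR and NOT gates can be brought into this
form by doubling their size. No bound on the depth is assumed. A randomised circuit is a finite
nonempty family of circuits from which one is chosen uniformly at random. The output is a real
number, an estimate of the least size of a vertex cover.

Faults: each negated input (the information that `e` is not an edge with the tag `j`) is stuck at `0`,
independently with probability `1 / D`. The other inputs are reliable. Faults make the output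
smaller. It is required (`Approximates`) that the output is at most `ratio` times the least size of
a vertex cover with probability at least `9 / 10`, without faults, and at least this size with
probability at least `9 / 10`, under faults.

Results.

(1) On the graphs on `2 n` vertices which contain a fixed perfect matching, for which the constant
`2 n` is a `2`-approximation, every such circuit with a ratio `c < 2` has `(2 ^ (n ^ (1 / 7)) - 1) / 3`
gates, for all large `n`, all `D` and `K ≥ D (log (4 (2 n) ^ 2) + 4)`.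

(2) On all graphs on `n` vertices every such circuit with a ratio at most `n ^ (1 / 2 - η)` has
`(2 ^ (n ^ (η / 4)) - 1) / 3` gates.

For `D = 1` all negated inputs are faulty; this is the case of monotone circuits, the starting results
`BelowTwo` and `SquareRootRatio`, which are used in the proof. So a polynomial-time algorithm with
ratio less than two, if there is one, must rely on all the information about missing edges being
correct, although faults are rare.

The proof: the edges of the graph get random tags. The negated bits of the positions that the other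
pairs would get are as good as random faulty bits (`Pool/Agent/Y630`), so all negated bits can be
replaced by `0`.
-/

set_option autoImplicit false

namespace Pool.Agent.Results.MP_cff830_lc.UnreliableNegations

open Pool.Agent.Q329.UX Finset Pool.Agent.Y630.TF H630VC

/-- The positions: a pair of vertices (possibly equal; such pairs are never edges) and a tag. -/
abbrev Position (V : Type) (K : ℕ) : Type := Sym2 V × Fin K

/-- The bits `w` are those of the graph `G`, with one tag for every edge. -/
def Tagged {V : Type} {K : ℕ} (G : SimpleGraph V) (w : Position V K → Bool) : Prop :=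
  (∀ e, e ∈ G.edgeSet ↔ ∃ j, w (e, j) = true) ∧
    ∀ e j j', w (e, j) = true → w (e, j') = true → j = j'

/-- The least size of a vertex cover. -/
noncomputable def coverNumber {V : Type} (G : SimpleGraph V) : ℕ :=
  sInf {k | ∃ C : Finset V, (∀ u v, G.Adj u v → u ∈ C ∨ v ∈ C) ∧ C.card = k}

/-- The random circuit `C ρ`, `ρ` uniform, estimates the least size of a vertex cover of the graphs in
`𝓖` within the ratio `c`, in the presence of faults with probability `1 / D` (`faultyP`, `accP`:
`Pool/Agent/Q329/UX/Gen.lean`). -/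
def Approximates {V R : Type} {K : ℕ} (C : R → LiteralCircuit (Position V K)) (D : ℕ) (c : ℝ)
    (𝓖 : Set (SimpleGraph V)) : Prop :=
  ∀ G ∈ 𝓖, ∀ w, Tagged G w →
    9 / 10 ≤ faultyP (fun ρ y => (coverNumber G : ℝ) ≤ (C ρ).val y (C ρ).out) D w ∧
    accP (fun ρ y => c * coverNumber G < (C ρ).val y (C ρ).out) w ≤ 1 / 10

theorem coverNumber_spec {V : Type} [Fintype V] (G : SimpleGraph V) :
    (∃ C : Finset V, IsCover G C ∧ C.card = coverNumber G) ∧
      ∀ C : Finset V, IsCover G C → coverNumber G ≤ C.card := by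
  have hne : {k | ∃ C : Finset V, (∀ u v, G.Adj u v → u ∈ C ∨ v ∈ C) ∧ C.card = k}.Nonempty :=
    ⟨_, univ, fun u _ _ => Or.inl (mem_univ u), rfl⟩
  refine ⟨?_, fun C hC => Nat.sInf_le ⟨C, hC, rfl⟩⟩
  obtain ⟨C, hC, hc⟩ := Nat.sInf_mem hne
  exact ⟨C, hC, hc⟩

/-- The circuits for the hidden graphs. -/
theorem hidden {V : Type} [Fintype V] [DecidableEq V] [Nonempty V] {K D : ℕ} (hD : 1 ≤ D)
    (hK : D * (Real.log (4 * (Fintype.card V : ℝ) ^ 2) + 4) ≤ K) {R : Type} [Fintype R]
    [Nonempty R] (C : R → LiteralCircuit (Position V K)) (c : ℝ) (hc : 0 ≤ c)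
    (𝓖 : Set (SimpleGraph V)) (h : Approximates C D c 𝓖) :
    ∃ (R' : Type) (_ : Fintype R') (_ : Nonempty R') (pr : R' → R)
      (l : R' → List (WGraph V → ℝ)), (∀ r, FProg (wInputs V) (l r) []) ∧
      (∀ r, (l r).length ≤ 3 * (C (pr r)).s + 1) ∧ RSolves c l (unit '' 𝓖) := by
  classical
  have hDR : (1 : ℝ) ≤ D := by exact_mod_cast hD
  have hV1 : (1 : ℝ) ≤ Fintype.card V := by exact_mod_cast Fintype.card_pos
  have hlog : 0 ≤ Real.log (4 * (Fintype.card V : ℝ) ^ 2) := Real.log_nonneg (by nlinarith)
  have hK0 : 0 < K := by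
    have h1 : (0 : ℝ) < K := lt_of_lt_of_le (by positivity) hK
    exact_mod_cast h1
  have : NeZero K := ⟨hK0.ne'⟩
  have hcard : (Fintype.card (Sym2 V) : ℝ) ≤ 4 * (Fintype.card V : ℝ) ^ 2 := by
    have h1 : Fintype.card (Sym2 V) ≤ Fintype.card (V × V) :=
      Fintype.card_le_of_surjective (fun p : V × V => s(p.1, p.2)) fun e => by
        induction e with
        | _ u v => exact ⟨(u, v), rfl⟩
    rw [Fintype.card_prod] at h1
    have h2 : (Fintype.card (Sym2 V) : ℝ) ≤ Fintype.card V * Fintype.card V := by
      exact_mod_cast h1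
    nlinarith
  have hbad : (Fintype.card (Sym2 V) : ℝ) * (1 - 1 / (D : ℝ)) ^ Fintype.card (Fin K) ≤
      1 / 40 := by
    rw [Fintype.card_fin]
    have h2 := Pool.Agent.Y630.TG.places_bad (D := D) (K := K)
      (n := 4 * (Fintype.card V : ℝ) ^ 2) (by omega) (by positivity) hK
    have h3 : (0 : ℝ) ≤ (1 - 1 / (D : ℝ)) ^ K := by
      apply pow_nonneg
      rw [sub_nonneg, div_le_one (by linarith)]
      exact hDR
    exact (mul_le_mul_of_nonneg_right hcard h3).trans h2
  have hne : Nonempty (Sym2 V) := by
    obtain ⟨v⟩ : Nonempty V := inferInstance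
    exact ⟨s(v, v)⟩
  let enc : WGraph V → Sym2 V → Bool := fun x e => decide (e ∈ x.G.edgeSet)
  have hbit : ∀ e : Sym2 V, (fun x => Pool.Agent.H560R2.bit (enc x) e) ∈ wInputs V := by
    intro e
    induction e with
    | _ u v =>
      refine Or.inl ⟨u, v, ?_⟩
      funext x
      show (if decide (s(u, v) ∈ x.G.edgeSet) = true then (1 : ℝ) else 0) = _
      by_cases huv : x.G.Adj u v
      · rw [if_pos huv, if_pos (decide_eq_true ((SimpleGraph.mem_edgeSet _).mpr huv))]
      · rw [if_neg huv, if_neg]
        rw [decide_eq_true_iff, SimpleGraph.mem_edgeSet]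
        exact huv
  have hconst : ∀ c : ℝ, (fun _ => c) ∈ wInputs V := fun c => Or.inr (Or.inr ⟨c, rfl⟩)
  let slot : Sym2 V × Fin K ↪ Position V K := Function.Embedding.refl _
  have hex : ∀ ω : R × (Sym2 V → Fin K), ∃ L : List (WGraph V → ℝ), FProg (wInputs V) L [] ∧
      L.length ≤ 3 * (C ω.1).s + 1 ∧
      (fun x => (C ω.1).val (rlit slot (fun _ => false) ω.2 (enc x)) (C ω.1).out) ∈ L := by
    intro ω
    obtain ⟨L, h1, h2, h3⟩ := value_list (wInputs V) enc hbit hconst slot (fun _ => false) ω.2
      (C ω.1)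
    exact ⟨L, h1, h2, h3 _⟩
  choose l hl hlen hmem using hex
  refine ⟨R × (Sym2 V → Fin K), inferInstance, inferInstance, Prod.fst, l, hl, hlen,
    Or.inl ⟨fun ω x => (C ω.1).val (rlit slot (fun _ => false) ω.2 (enc x)) (C ω.1).out, hmem, ?_⟩⟩
  rintro x ⟨G, hG, rfl⟩
  -- the tagged graphs
  have htag : ∀ τ, Tagged G (host slot (fun _ => false) τ (enc (unit G))) := by
    intro τ
    have hw : ∀ e j, host slot (fun _ => false) τ (enc (unit G)) (e, j) = true ↔
        e ∈ G.edgeSet ∧ τ e = j := by
      intro e j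
      rw [host_true]
      constructor
      · rintro (h1 | ⟨q, h1, h2⟩)
        · exact absurd h1 (by simp)
        · have h3 : q = e := congrArg Prod.fst h2
          have h4 : τ q = j := congrArg Prod.snd h2
          rw [h3] at h1 h4
          exact ⟨of_decide_eq_true h1, h4⟩
      · rintro ⟨h1, h2⟩
        exact Or.inr ⟨e, decide_eq_true h1, by rw [h2]; rfl⟩
    refine ⟨fun e => ⟨fun he => ⟨τ e, (hw _ _).mpr ⟨he, rfl⟩⟩, fun ⟨j, hj⟩ => ((hw _ _).mp hj).1⟩,
      fun e j j' h1 h2 => ?_⟩
    rw [← ((hw _ _).mp h1).2, ← ((hw _ _).mp h2).2]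
  obtain ⟨⟨C₀, hC₀, hC₀c⟩, hmin⟩ := coverNumber_spec G
  have h1 := hide_value (fun ρ y => (C ρ).val y (C ρ).out)
    (fun ρ u v huv => lit_val_mono (C ρ) huv _) (by omega : 0 < D) slot (fun _ => false) hbad
    (enc (unit G)) (coverNumber G : ℝ) (c * coverNumber G) (fun τ => (h G hG _ (htag τ)).1)
    (fun τ => (h G hG _ (htag τ)).2)
  refine h1.trans (Nat.mul_le_mul_left _ (card_le_card fun ω hω => ?_))
  rw [mem_filter] at hω ⊢
  refine ⟨mem_univ _, ⟨C₀, hC₀, ?_⟩, fun C' hC' => ?_⟩
  · show ∑ v ∈ C₀, (1 : ℝ) ≤ _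
    rw [sum_const, nsmul_eq_mul, mul_one, hC₀c]
    exact hω.2.1
  · show _ ≤ c * ∑ v ∈ C', (1 : ℝ)
    rw [sum_const, nsmul_eq_mul, mul_one]
    have h2 : (coverNumber G : ℝ) ≤ C'.card := by exact_mod_cast hmin C' hC'
    exact hω.2.2.trans (mul_le_mul_of_nonneg_left h2 hc)

/-- (1) For every ratio `1 ≤ c < 2`, all large `n`, all `D ≥ 1` and `K ≥ D (log (4 (2 n) ^ 2) + 4)`: if
a finite nonempty family of circuits on literals with nondecreasing real gates of fan-in at most two
estimates the least size of a vertex cover within the ratio `c` on all graphs on `2 n` vertices which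
contain the perfect matching `{inl i, inr i}`, in the presence of faults with probability `1 / D`,
then some circuit of the family has `s` gates with `2 ^ (n ^ (1 / 7)) ≤ 3 s + 1`.

(2) For every `0 < η ≤ 1 / 2`, all large `n`, all `D ≥ 1`, `K ≥ D (log (4 n ^ 2) + 4)` and all ratios
`1 ≤ c ≤ n ^ (1 / 2 - η)`: if such a family estimates the least size of a vertex cover within the
ratio `c` on all graphs on `n` vertices, in the presence of faults with probability `1 / D`, then some
circuit of the family has `s` gates with `2 ^ (n ^ (η / 4)) ≤ 3 s + 1`. -/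
theorem result :
    (∀ c : ℝ, 1 ≤ c → c < 2 → ∃ N : ℕ, ∀ n D K : ℕ, N ≤ n → 1 ≤ D →
      D * (Real.log (4 * (2 * n) ^ 2) + 4) ≤ K →
      ∀ (R : Type) [Finite R] [Nonempty R] (C : R → LiteralCircuit (Position (Fin n ⊕ Fin n) K)),
        Approximates C D c (pmGraphs n) →
        ∃ ρ, (2 : ℝ) ^ ((n : ℝ) ^ (1 / 7 : ℝ)) ≤ 3 * (C ρ).s + 1) ∧
    (∀ η : ℝ, 0 < η → η ≤ 1 / 2 → ∃ N : ℕ, ∀ n D K : ℕ, N ≤ n → 1 ≤ D →
      D * (Real.log (4 * n ^ 2) + 4) ≤ K → ∀ c : ℝ, 1 ≤ c → c ≤ (n : ℝ) ^ (1 / 2 - η) →
      ∀ (R : Type) [Finite R] [Nonempty R] (C : R → LiteralCircuit (Position (Fin n) K)),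
        Approximates C D c Set.univ →
        ∃ ρ, (2 : ℝ) ^ ((n : ℝ) ^ (η / 4)) ≤ 3 * (C ρ).s + 1) := by
  classical
  constructor
  · intro c hc1 hc2
    obtain ⟨N, hN⟩ := asymp_rand_pm c hc2 0 le_rfl (by norm_num)
    refine ⟨max N 1, fun n D K hn hD hK R _ _ C h => ?_⟩
    let _ : Fintype R := Fintype.ofFinite R
    have hn1 : 1 ≤ n := (le_max_right _ _).trans hn
    have : Nonempty (Fin n ⊕ Fin n) := ⟨Sum.inl ⟨0, hn1⟩⟩
    obtain ⟨R', _, _, pr, l, hl, hlen, hs⟩ := hidden hD (by
      rw [Fintype.card_sum, Fintype.card_fin]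
      refine le_trans (le_of_eq ?_) hK
      push_cast
      ring_nf) C c (by linarith) _ h
    obtain ⟨r, hr⟩ := hN n ((le_max_left _ _).trans hn) R' l (fun _ => []) hl hs (fun r => by
      simp [combos])
    refine ⟨pr r, ?_⟩
    have h1 : ((l r).length : ℝ) ≤ 3 * (C (pr r)).s + 1 := by exact_mod_cast hlen r
    have h2 : (wires ([] : List (List ((WGraph (Fin n ⊕ Fin n) → ℝ) × ℝ))) : ℝ) = 0 := by
      simp [wires]
    rw [h2, add_zero] at hr
    have h3 : ((1 : ℝ) - 2 * 0) / 7 = 1 / 7 := by norm_num
    rw [h3] at hr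
    exact hr.trans h1
  · intro η hη hη2
    obtain ⟨N, hN⟩ := asymp_rand_all η hη hη2
    refine ⟨max N 1, fun n D K hn hD hK c hc1 hc2 R _ _ C h => ?_⟩
    let _ : Fintype R := Fintype.ofFinite R
    have hn1 : 1 ≤ n := (le_max_right _ _).trans hn
    have : Nonempty (Fin n) := ⟨⟨0, hn1⟩⟩
    obtain ⟨R', _, _, pr, l, hl, hlen, hs⟩ := hidden hD (by
      rw [Fintype.card_fin]
      exact hK) C c (by linarith) _ h
    obtain ⟨r, hr⟩ := hN n ((le_max_left _ _).trans hn) c hc1 R' l (fun _ => []) hl hs
      (fun r => by simpa [combos] using hc2)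
    refine ⟨pr r, ?_⟩
    have h1 : ((l r).length : ℝ) ≤ 3 * (C (pr r)).s + 1 := by exact_mod_cast hlen r
    have h2 : (wires ([] : List (List ((WGraph (Fin n) → ℝ) × ℝ))) : ℝ) = 0 := by
      simp [wires]
    rw [h2, add_zero] at hr
    exact hr.trans h1

end Pool.Agent.Results.MP_cff830_lc.UnreliableNegations
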